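import Pool.Agent.Work.MP_50f8f6_al.S1Defs

/-!
# Sub-blocks F1, F2, B0 of block S1 (helper35)
-/

namespace FrobP
open GMet

namespace S1
namespace H35
variable {V ι : Type} [GMet V] (C : ConeData V ι)

theorem be_mem_of_lv {i : ι} {v : Cone C} (h : lv C i v ≠ 0) : be C v ∈ C.Y i := by
  classical
  obtain ⟨v, hv⟩ := v
  cases v with
  | base x => simp [lv] at h
  | lev j y k =>
    by_cases hji : j = i
    · subst hji; exact hv.1
    · simp [lv, hji] at h
  | apex j =>
    by_cases hji : j = i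
    · subst hji; exact (C.hY j).choose_spec
    · simp [lv, hji] at h

theorem lv_unique {i j : ι} {v : Cone C} (hi : lv C i v ≠ 0) (hj : lv C j v ≠ 0) : i = j := by
  classical
  obtain ⟨v, hv⟩ := v
  cases v with
  | base x => simp [lv] at hi
  | lev l y k =>
    by_cases h1 : l = i
    · by_cases h2 : l = j
      · rw [← h1, ← h2]
      · simp [lv, h2] at hj
    · simp [lv, h1] at hi
  | apex l =>
    by_cases h1 : l = i
    · by_cases h2 : l = j
      · rw [← h1, ← h2]
      · simp [lv, h2] at hj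
    · simp [lv, h1] at hi

theorem lv_le (i : ι) (v : Cone C) : lv C i v ≤ C.ρ + 1 := by
  classical
  obtain ⟨v, hv⟩ := v
  cases v with
  | base x => simp [lv]
  | lev l y k =>
    have := hv.2.2
    simp only [lv]
    split_ifs <;> omega
  | apex l =>
    simp only [lv]
    split_ifs <;> omega

theorem av_of_lv {i : ι} {v : Cone C} (h : lv C i v ≠ 0) : av C i v = be C v :=
  pj_of_mem C (be_mem_of_lv C h)

theorem d_pj_le {θ : ℕ} (hF : Fam C θ) (i : ι) (x y : V) :
    d (pj C i x) (pj C i y) ≤ d x y + 16 * θ :=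
  (pj_spec C i x).p4 hF.hyp hF.one_le (hF.qc i) (pj_spec C i y)

theorem d_pj_small {θ : ℕ} (hF : Fam C θ) {i j : ι} (hij : i ≠ j) {x y : V} (hx : x ∈ C.Y j)
    (hy : y ∈ C.Y j) : d (pj C i x) (pj C i y) ≤ θ :=
  (le_prd (pj_spec C i x) (pj_spec C i y)).trans (hF.small i j hij x hx y hy)

theorem notVis {i : ι} {v w : Cone C} {z : V} (h : ¬ VisI C i v w z) :
    (lv C i v ≠ 0 ∨ 2 * C.R < d (pj C i z) (av C i v)) ∧
    (lv C i w ≠ 0 ∨ 2 * C.R < d (pj C i z) (av C i w)) := by
  unfold VisI at h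
  push Not at h
  obtain ⟨h1, h2⟩ := h
  constructor
  · by_cases h0 : lv C i v = 0
    · exact Or.inr (h1 h0)
    · exact Or.inl h0
  · by_cases h0 : lv C i w = 0
    · exact Or.inr (h2 h0)
    · exact Or.inl h0

end H35

open H35

theorem f1 : F1Stmt := by
  intro V ι _ C θ hF hR i v w z hz hv
  obtain ⟨h1, h2⟩ := notVis C hv
  have hθ := hF.one_le
  refine (Pr.p6 hF.hyp hF.one_le (hF.qc i) hz (pj_spec C i (be C v)) (pj_spec C i (be C w))
    (pj_spec C i z) ?_ ?_).1
  · rcases h1 with h | h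
    · exact Or.inl (be_mem_of_lv C h)
    · right
      unfold av at h
      rw [GMet.symm]
      omega
  · rcases h2 with h | h
    · exact Or.inl (be_mem_of_lv C h)
    · right
      unfold av at h
      omega

theorem H35.f2aux {V ι : Type} [GMet V] (C : ConeData V ι) {θ : ℕ} (hF : Fam C θ)
    (hR : 100 * θ ≤ C.R) {i j : ι} (hij : i ≠ j) {v w : Cone C} {z z' : V}
    (hz : Bt (be C v) z (be C w)) (hz' : Bt (be C v) z' (be C w)) (hd : d z z' ≤ 1)
    (h1 : ¬ VisI C i v w z) (h2 : ¬ VisI C j v w z') (h0 : lv C i v = 0) : False := by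
  have hθ := hF.one_le
  have e1 : 2 * C.R < d (pj C i z) (av C i v) := by
    rcases (notVis C h1).1 with h | h
    · exact absurd h0 h
    · exact h
  have f := f1 V ι C θ hF hR i v w z hz h1
  have f' := f1 V ι C θ hF hR j v w z' hz' h2
  have t1 := tri z z' (pj C j z')
  have a1 := d_pj_le C hF i z (pj C j z')
  have a2 := d_pj_small C hF hij (pj_mem C j z') (av_mem C j v)
  have t2 := tri (pj C i z) (pj C i (pj C j z')) (pj C i (av C j v))
  have t3 := tri (pj C i z) (pj C i (av C j v)) (av C i v)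
  by_cases hj : lv C j v = 0
  · have e2 : 2 * C.R < d (pj C j z') (av C j v) := by
      rcases (notVis C h2).1 with h | h
      · exact absurd hj h
      · exact h
    by_cases hl : 9 * θ < prd (C.Y i) (be C v) (av C j v)
    · have b := hF.behr hij (av_mem C j v) hl (pj_mem C i z)
      have b1 : d (av C j v) (pj C j (pj C i z)) ≤ 35 * θ :=
        (le_prd (pj_spec C j (be C v)) (pj_spec C j (pj C i z))).trans b
      have b2 := d_pj_le C hF j z' (pj C i z)
      have b3 := tri z' z (pj C i z)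
      have b4 := tri (pj C j z') (pj C j (pj C i z)) (av C j v)
      have s1 := GMet.symm z z'
      have s2 := GMet.symm (av C j v) (pj C j (pj C i z))
      omega
    · have b1 : d (av C i v) (pj C i (av C j v)) ≤ 9 * θ :=
        (le_prd (pj_spec C i (be C v)) (pj_spec C i (av C j v))).trans (by omega)
      have s2 := GMet.symm (av C i v) (pj C i (av C j v))
      omega
  · have e2 : av C i v = pj C i (av C j v) := by
      rw [av_of_lv C hj]; rfl
    have e3 : d (pj C i (av C j v)) (av C i v) = 0 := by rw [← e2, d_self]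
    omega

theorem f2 : F2Stmt := by
  refine ⟨100, ?_⟩
  intro V ι _ C θ hF hR i j v w z z' hz hz' hd h1 h2
  by_contra hij
  by_cases h0 : lv C i v = 0
  · exact f2aux C hF hR hij hz hz' hd h1 h2 h0
  · have hj : lv C j v = 0 := by
      by_contra hj
      exact hij (lv_unique C h0 hj)
    exact f2aux C hF hR (Ne.symm hij) hz' hz (by rw [GMet.symm]; exact hd) h2 h1 hj

namespace H35
variable {V ι : Type} [GMet V] (C : ConeData V ι)

theorem vl_congr {i : ι} {y y' : V} (h : y = y') (hy : y ∈ C.Y i) (hy' : y' ∈ C.Y i) (k : ℕ) :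
    vl C i y hy k = vl C i y' hy' k := by subst h; rfl

theorem vl_up {i : ι} {y : V} (hy : y ∈ C.Y i) (k : ℕ) :
    d (vl C i y hy k) (vl C i y hy (k + 1)) ≤ 1 := by
  have hρ := C.hρ
  by_cases h0 : k = 0
  · subst h0
    have e1 : vl C i y hy 0 = Cone.base C y := by simp [vl]
    have e2 : vl C i y hy (0 + 1) = Cone.lev C i y 1 hy le_rfl hρ := by
      unfold vl
      rw [dif_neg (by omega), dif_pos (by omega)]
    rw [e1, e2]
    exact Cone.d_le_one_of_edge (CV.Edge.up0 i y)
  · by_cases h1 : k + 1 ≤ C.ρ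
    · have e1 : vl C i y hy k = Cone.lev C i y k hy (by omega) (by omega) := by
        unfold vl
        rw [dif_neg h0, dif_pos (by omega)]
      have e2 : vl C i y hy (k + 1) = Cone.lev C i y (k + 1) hy (by omega) h1 := by
        unfold vl
        rw [dif_neg (by omega), dif_pos (by omega)]
      rw [e1, e2]
      exact Cone.d_le_one_of_edge (CV.Edge.up i y k)
    · have e2 : vl C i y hy (k + 1) = Cone.apex C i := by
        unfold vl
        rw [dif_neg (by omega), dif_neg (by omega)]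
      by_cases h2 : k ≤ C.ρ
      · have hk : k = C.ρ := by omega
        subst hk
        have e1 : vl C i y hy C.ρ = Cone.lev C i y C.ρ hy (by omega) (by omega) := by
          unfold vl
          rw [dif_neg h0, dif_pos (by omega)]
        rw [e1, e2]
        exact Cone.d_le_one_of_edge (CV.Edge.top i y)
      · have e1 : vl C i y hy k = Cone.apex C i := by
          unfold vl
          rw [dif_neg (by omega), dif_neg (by omega)]
        rw [e1, e2, d_self]; omega

theorem vl_hor {i : ι} {y z : V} (hy : y ∈ C.Y i) (hz : z ∈ C.Y i) {k : ℕ} (hk : 1 ≤ k)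
    (hd : k ≤ C.ρ → d y z ≤ 2 ^ k * C.R) :
    d (vl C i y hy k) (vl C i z hz k) ≤ 1 := by
  by_cases h1 : k ≤ C.ρ
  · have e1 : vl C i y hy k = Cone.lev C i y k hy hk h1 := by
      unfold vl
      rw [dif_neg (by omega), dif_pos (by omega)]
    have e2 : vl C i z hz k = Cone.lev C i z k hz hk h1 := by
      unfold vl
      rw [dif_neg (by omega), dif_pos (by omega)]
    rw [e1, e2]
    exact Cone.d_le_one_of_edge (CV.Edge.hor i y z k (hd h1))
  · have e1 : vl C i y hy k = Cone.apex C i := by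
      unfold vl
      rw [dif_neg (by omega), dif_neg (by omega)]
    have e2 : vl C i z hz k = Cone.apex C i := by
      unfold vl
      rw [dif_neg (by omega), dif_neg (by omega)]
    rw [e1, e2, d_self]; omega

theorem vl_lv {i : ι} {v : Cone C} (h : lv C i v ≠ 0) :
    vl C i (av C i v) (av_mem C i v) (lv C i v) = v := by
  classical
  have hm := be_mem_of_lv C h
  have ha := av_of_lv C h
  rw [vl_congr C ha (av_mem C i v) hm]
  obtain ⟨v, hv⟩ := v
  cases v with
  | base x => simp [lv] at h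
  | lev j y k =>
    by_cases hji : j = i
    · subst hji
      have e : lv C j ⟨CV.lev j y k, hv⟩ = k := by simp [lv]
      unfold vl
      rw [dif_neg h, dif_pos (by rw [e]; exact hv.2.2)]
      apply Subtype.ext
      change CV.lev j (be C ⟨CV.lev j y k, hv⟩) (lv C j ⟨CV.lev j y k, hv⟩) = CV.lev j y k
      rw [e]
      rfl
    · simp [lv, hji] at h
  | apex j =>
    by_cases hji : j = i
    · subst hji
      have e : lv C j ⟨CV.apex j, hv⟩ = C.ρ + 1 := by simp [lv]
      unfold vl
      rw [dif_neg h, dif_neg (by rw [e]; omega)]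
      rfl
    · simp [lv, hji] at h

theorem InArch.symm {i : ι} {v w : Cone C} {k : ℕ} (h : InArch C i v w k) :
    InArch C i w v k := by
  unfold InArch at *
  rw [GMet.symm (av C i w)]
  tauto

theorem VisI.symm {i : ι} {v w : Cone C} {z : V} (h : VisI C i v w z) : VisI C i w v z := by
  unfold VisI at *
  tauto

theorem Vis.symm {v w : Cone C} {z : V} (h : Vis C v w z) : Vis C w v z :=
  ⟨h.1.symm', fun i hi => VisI.symm C (h.2 i (InArch.symm C hi))⟩

theorem LL.symm {v w u : Cone C} (h : u ∈ LL C v w) : u ∈ LL C w v := by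
  rcases h with ⟨z, hz, e⟩ | ⟨i, k, h1, h2, e⟩ | ⟨i, k, h1, h2, e⟩
  · exact Or.inl ⟨z, Vis.symm C hz, e⟩
  · exact Or.inr (Or.inr ⟨i, k, InArch.symm C h1, h2, e⟩)
  · exact Or.inr (Or.inl ⟨i, k, InArch.symm C h1, h2, e⟩)

theorem InArch.mono {i : ι} {v w : Cone C} {k l : ℕ} (h : InArch C i v w k) (hl : 1 ≤ l)
    (hlk : l ≤ k) : InArch C i v w l := by
  unfold InArch at *
  have h2 : 2 ^ (l - 1) * C.R ≤ 2 ^ (k - 1) * C.R :=
    Nat.mul_le_mul_right _ (Nat.pow_le_pow_right (by omega) (by omega))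
  refine ⟨hl, by omega, ?_⟩
  rcases h.2.2 with h | h | h
  · left; omega
  · right; left; omega
  · right; right; omega

theorem inArch_lv {i : ι} {v w : Cone C} (h : lv C i v ≠ 0) : InArch C i v w (lv C i v) :=
  ⟨by omega, lv_le C i v, Or.inl le_rfl⟩

/-- the arch of `i` -/
def Arch (i : ι) (v w : Cone C) : Set (Cone C) :=
  {u | (∃ k, InArch C i v w k ∧ lv C i v ≤ k ∧ u = vl C i (av C i v) (av_mem C i v) k) ∨
    (∃ k, InArch C i v w k ∧ lv C i w ≤ k ∧ u = vl C i (av C i w) (av_mem C i w) k)}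

theorem Arch.subset {i : ι} {v w u : Cone C} (h : u ∈ Arch C i v w) : u ∈ LL C v w := by
  rcases h with ⟨k, h⟩ | ⟨k, h⟩
  · exact Or.inr (Or.inl ⟨i, k, h⟩)
  · exact Or.inr (Or.inr ⟨i, k, h⟩)

theorem Arch.symm {i : ι} {v w u : Cone C} (h : u ∈ Arch C i v w) : u ∈ Arch C i w v := by
  rcases h with ⟨k, h1, h⟩ | ⟨k, h1, h⟩
  · exact Or.inr ⟨k, InArch.symm C h1, h⟩
  · exact Or.inl ⟨k, InArch.symm C h1, h⟩

/-- the step relation -/
def Stp (h : ℕ) (v w : Cone C) (a b : Cone C) : Prop :=
  a ∈ LL C v w ∧ b ∈ LL C v w ∧ d a b ≤ h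

/-- connected -/
def Con (h : ℕ) (v w : Cone C) (a b : Cone C) : Prop :=
  Relation.ReflTransGen (Stp C h v w) a b

theorem Con.symm {h : ℕ} {v w a b : Cone C} (hab : Con C h v w a b) : Con C h v w b a := by
  unfold Con at *
  induction hab with
  | refl => exact Relation.ReflTransGen.refl
  | tail _ h2 ih =>
    exact (Relation.ReflTransGen.single ⟨h2.2.1, h2.1, by rw [GMet.symm]; exact h2.2.2⟩).trans ih

theorem Con.trans {h : ℕ} {v w a b c : Cone C} (hab : Con C h v w a b) (hbc : Con C h v w b c) :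
    Con C h v w a c := Relation.ReflTransGen.trans hab hbc

theorem Con.single {h : ℕ} {v w a b : Cone C} (hab : Stp C h v w a b) : Con C h v w a b :=
  Relation.ReflTransGen.single hab

/-- left leg -/
theorem leg_con {h : ℕ} (hh : 1 ≤ h) {i : ι} {v w : Cone C} {m : ℕ} (hm : InArch C i v w m) :
    ∀ (n k : ℕ), k + n = m → 1 ≤ k → lv C i v ≤ k →
    Con C h v w (vl C i (av C i v) (av_mem C i v) k) (vl C i (av C i v) (av_mem C i v) m) := by
  intro n
  induction n with
  | zero =>
    intro k hk _ _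
    have : k = m := by omega
    subst this
    exact Relation.ReflTransGen.refl
  | succ n ih =>
    intro k hk h1 h2
    have e1 := ih (k + 1) (by omega) (by omega) (by omega)
    refine (Con.single C ⟨?_, ?_, (vl_up C (av_mem C i v) k).trans hh⟩).trans C e1
    · exact Or.inr (Or.inl ⟨i, k, InArch.mono C hm h1 (by omega), h2, rfl⟩)
    · exact Or.inr (Or.inl ⟨i, k + 1, InArch.mono C hm (by omega) (by omega), by omega, rfl⟩)

theorem leg_con' {h : ℕ} (hh : 1 ≤ h) {i : ι} {v w : Cone C} {m : ℕ} (hm : InArch C i v w m)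
    (k : ℕ) (hk : k ≤ m) (h1 : 1 ≤ k) (h2 : lv C i w ≤ k) :
    Con C h v w (vl C i (av C i w) (av_mem C i w) k) (vl C i (av C i w) (av_mem C i w) m) := by
  have key : ∀ (n k : ℕ), k + n = m → 1 ≤ k → lv C i w ≤ k →
    Con C h v w (vl C i (av C i w) (av_mem C i w) k) (vl C i (av C i w) (av_mem C i w) m) := by
    intro n
    induction n with
    | zero =>
      intro k hk _ _
      have : k = m := by omega
      subst this
      exact Relation.ReflTransGen.refl
    | succ n ih =>
      intro k hk h1 h2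
      have e1 := ih (k + 1) (by omega) (by omega) (by omega)
      refine (Con.single C ⟨?_, ?_, (vl_up C (av_mem C i w) k).trans hh⟩).trans C e1
      · exact Or.inr (Or.inr ⟨i, k, InArch.mono C hm h1 (by omega), h2, rfl⟩)
      · exact Or.inr (Or.inr ⟨i, k + 1, InArch.mono C hm (by omega) (by omega), by omega, rfl⟩)
  exact key (m - k) k (by omega) h1 h2

theorem arch_con {h : ℕ} (hh : 1 ≤ h) {i : ι} {v w : Cone C} {a b : Cone C}
    (ha : a ∈ Arch C i v w) (hb : b ∈ Arch C i v w) : Con C h v w a b := by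
  classical
  -- the top level
  have hex : ∃ m, InArch C i v w m := by
    rcases ha with ⟨k, h, _⟩ | ⟨k, h, _⟩ <;> exact ⟨k, h⟩
  obtain ⟨m, hm, hmax⟩ : ∃ m, InArch C i v w m ∧ ∀ k, InArch C i v w k → k ≤ m := by
    obtain ⟨m0, h0⟩ := hex
    have hP : InArch C i v w (Nat.findGreatest (fun k => InArch C i v w k) (C.ρ + 1)) :=
      Nat.findGreatest_spec (P := fun k => InArch C i v w k) h0.2.1 h0
    exact ⟨_, hP, fun k hk => Nat.le_findGreatest hk.2.1 hk⟩
  have hv : lv C i v ≤ m := by
    by_cases h0 : lv C i v = 0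
    · omega
    · exact hmax _ (inArch_lv C h0)
  have hw : lv C i w ≤ m := by
    by_cases h0 : lv C i w = 0
    · omega
    · exact hmax _ (InArch.symm C (inArch_lv C h0))
  have hm1 := hm.1
  have top : Con C h v w (vl C i (av C i w) (av_mem C i w) m) (vl C i (av C i v) (av_mem C i v) m) := by
    apply Con.single
    refine ⟨Or.inr (Or.inr ⟨i, m, hm, hw, rfl⟩), Or.inr (Or.inl ⟨i, m, hm, hv, rfl⟩), ?_⟩
    refine (vl_hor C (av_mem C i w) (av_mem C i v) hm1 ?_).trans hh
    intro hmρ
    by_contra hcon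
    have : InArch C i v w (m + 1) := by
      refine ⟨by omega, by omega, Or.inr (Or.inr ?_)⟩
      rw [Nat.add_sub_cancel, GMet.symm]
      omega
    have := hmax _ this
    omega
  have key : ∀ a ∈ Arch C i v w, Con C h v w a (vl C i (av C i v) (av_mem C i v) m) := by
    intro a ha
    rcases ha with ⟨k, h1, h2, rfl⟩ | ⟨k, h1, h2, rfl⟩
    · have := hmax k h1
      exact leg_con C hh hm (m - k) k (by omega) h1.1 h2
    · exact (leg_con' C hh hm k (hmax k h1) h1.1 h2).trans C top
  exact (key a ha).trans C (key b hb).symm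

/-- attached points -/
def Att (v w : Cone C) (z : V) (u : Cone C) : Prop :=
  (Vis C v w z ∧ u = Cone.base C z) ∨
    (∃ i, InArch C i v w 1 ∧ ¬ VisI C i v w z ∧ u ∈ Arch C i v w)

theorem Att.mem {v w : Cone C} {z : V} {u : Cone C} (h : Att C v w z u) : u ∈ LL C v w := by
  rcases h with ⟨h1, h2⟩ | ⟨i, _, _, h⟩
  · exact Or.inl ⟨z, h1, h2⟩
  · exact Arch.subset C h

/-- every arch contains a point -/
theorem arch_nonempty {i : ι} {v w : Cone C} (h : InArch C i v w 1) : ∃ u, u ∈ Arch C i v w := by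
  by_cases h0 : lv C i v = 0
  · exact ⟨_, Or.inl ⟨1, h, by omega, rfl⟩⟩
  · exact ⟨_, Or.inl ⟨lv C i v, inArch_lv C h0, le_rfl, rfl⟩⟩

theorem exists_att {v w : Cone C} {z : V} (hz : Bt (be C v) z (be C w)) : ∃ u, Att C v w z u := by
  by_cases h : Vis C v w z
  · exact ⟨_, Or.inl ⟨h, rfl⟩⟩
  · unfold Vis at h
    push Not at h
    obtain ⟨i, h1, h2⟩ := h hz
    obtain ⟨u, hu⟩ := arch_nonempty C h1
    exact ⟨u, Or.inr ⟨i, h1, h2, hu⟩⟩

/-- (F3) -/
theorem f3 {θ : ℕ} (hR : 100 * θ ≤ C.R) {i : ι} {v w : Cone C} {z : V}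
    (hz : Vis C v w z) (hi : InArch C i v w 1) (hd : d z (pj C i z) ≤ 17 * θ) :
    ∃ u ∈ Arch C i v w, d (Cone.base C z) u ≤ 4 := by
  have key : ∀ y (hy : y ∈ C.Y i), d (pj C i z) y ≤ 2 * C.R →
      d (Cone.base C z) (vl C i y hy 1) ≤ 4 := by
    intro y hy hd'
    have e1 := Cone.base_le C 1 z (pj C i z) (by omega)
    have e2 := Cone.base_le C 2 (pj C i z) y (by omega)
    have e3 := vl_up C hy 0
    have e4 : vl C i y hy 0 = Cone.base C y := by simp [vl]
    rw [e4] at e3
    have t1 := tri (Cone.base C z) (Cone.base C (pj C i z)) (Cone.base C y)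
    have t2 := tri (Cone.base C z) (Cone.base C y) (vl C i y hy 1)
    have e3' : d (Cone.base C y) (vl C i y hy 1) ≤ 1 := e3
    omega
  rcases hz.2 i hi with ⟨h0, h1⟩ | ⟨h0, h1⟩
  · exact ⟨_, Or.inl ⟨1, hi, by omega, rfl⟩, key _ _ h1⟩
  · exact ⟨_, Or.inr ⟨1, hi, by omega, rfl⟩, key _ _ h1⟩

theorem link {θ : ℕ} (hF : Fam C θ) (hR : 100 * θ ≤ C.R) {v w : Cone C} {z z' : V}
    (hz : Bt (be C v) z (be C w)) (hz' : Bt (be C v) z' (be C w)) (hd : d z z' ≤ 1)
    {u u' : Cone C} (hu : Att C v w z u) (hu' : Att C v w z' u') : Con C 4 v w u u' := by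
  have hθ := hF.one_le
  have aux : ∀ {z z' : V} {u u' : Cone C}, Bt (be C v) z (be C w) → Bt (be C v) z' (be C w) →
      d z z' ≤ 1 → Vis C v w z → u = Cone.base C z →
      (∃ i, InArch C i v w 1 ∧ ¬ VisI C i v w z' ∧ u' ∈ Arch C i v w) → Con C 4 v w u u' := by
    intro z z' u u' hz hz' hd h1 h2 h3
    obtain ⟨i, hi, hv, hu'⟩ := h3
    have e1 := f1 V ι C θ hF hR i v w z' hz' hv
    have e2 := (pj_spec C i z).le (pj_mem C i z')
    have e3 := tri z z' (pj C i z')
    obtain ⟨a, ha, hda⟩ := f3 C hR h1 hi (by omega)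
    refine (Con.single C ⟨Or.inl ⟨z, h1, h2⟩, Arch.subset C ha, ?_⟩).trans C
      (arch_con C (by omega) ha hu')
    rw [h2]; exact hda
  rcases hu with ⟨h1, h2⟩ | ⟨i, h1, h2, h3⟩
  · rcases hu' with ⟨h1', h2'⟩ | h3'
    · apply Con.single
      refine ⟨Or.inl ⟨z, h1, h2⟩, Or.inl ⟨z', h1', h2'⟩, ?_⟩
      have := Cone.base_le C 1 z z' (by omega)
      rw [h2, h2']
      omega
    · exact aux hz hz' hd h1 h2 h3'
  · rcases hu' with ⟨h1', h2'⟩ | ⟨j, h1', h2', h3'⟩
    · exact (aux hz' hz (by rw [GMet.symm]; exact hd) h1' h2' ⟨i, h1, h2, h3⟩).symm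
    · have hij : i = j := by
        by_contra hij
        by_cases h0 : lv C i v = 0
        · exact f2aux C hF hR hij hz hz' hd h2 h2' h0
        · have hj : lv C j v = 0 := by
            by_contra hj
            exact hij (lv_unique C h0 hj)
          exact f2aux C hF hR (Ne.symm hij) hz' hz (by rw [GMet.symm]; exact hd) h2' h2 hj
      subst hij
      exact arch_con C (by omega) h3 h3'

theorem base_be {v : Cone C} (h : ∀ i, lv C i v = 0) : v = Cone.base C (be C v) := by
  classical
  obtain ⟨v, hv⟩ := v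
  cases v with
  | base x => rfl
  | lev j y k =>
    have := h j
    simp only [lv, if_true] at this
    have := hv.2.1
    omega
  | apex j =>
    have := h j
    simp only [lv, if_true] at this
    omega

theorem mem_arch {i : ι} {v w : Cone C} (h : lv C i v ≠ 0) : v ∈ Arch C i v w :=
  Or.inl ⟨lv C i v, inArch_lv C h, le_rfl, (vl_lv C h).symm⟩

theorem start {θ : ℕ} (hR : 100 * θ ≤ C.R) {v w : Cone C} {u : Cone C}
    (hu : Att C v w (be C v) u) : v ∈ LL C v w ∧ Con C 4 v w v u := by
  by_cases hall : ∀ i, lv C i v = 0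
  · have hvb := base_be C hall
    have hvis : Vis C v w (be C v) := by
      refine ⟨Bt.left _ _, fun i _ => Or.inl ⟨hall i, ?_⟩⟩
      unfold av
      rw [d_self]; omega
    have hm : v ∈ LL C v w := Or.inl ⟨_, hvis, hvb⟩
    refine ⟨hm, ?_⟩
    rcases hu with ⟨h1, h2⟩ | ⟨i, h1, h2, h3⟩
    · rw [h2, ← hvb]; exact Relation.ReflTransGen.refl
    · exact absurd (hvis.2 i h1) h2
  · push Not at hall
    obtain ⟨i, hi⟩ := hall
    have hm := mem_arch C (w := w) hi
    refine ⟨Arch.subset C hm, ?_⟩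
    rcases hu with ⟨h1, h2⟩ | ⟨j, h1, h2, h3⟩
    · have hi1 : InArch C i v w 1 := InArch.mono C (inArch_lv C hi) le_rfl (by omega)
      have e : pj C i (be C v) = be C v := pj_of_mem C (be_mem_of_lv C hi)
      obtain ⟨a, ha, hda⟩ := f3 C hR h1 hi1 (by rw [e, d_self]; omega)
      refine (arch_con C (by omega) hm ha).trans C
        (Con.single C ⟨Arch.subset C ha, Or.inl ⟨_, h1, h2⟩, ?_⟩)
      rw [h2, GMet.symm]; exact hda
    · have hij : j = i := by
        apply lv_unique C (v := v) _ hi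
        intro h0
        apply h2
        left
        refine ⟨h0, ?_⟩
        unfold av
        rw [d_self]; omega
      subst hij
      exact arch_con C (by omega) hm h3

end H35

theorem b0 : B0Stmt := by
  refine ⟨100, 4, ?_⟩
  intro V ι _ C θ hF hR v w
  have hw0 : Bt (be C v) (be C w) (be C w) := Bt.right _ _
  have hv0 : Bt (be C v) (be C v) (be C w) := Bt.left _ _
  obtain ⟨u0, hu0⟩ := exists_att C hv0
  refine ⟨(start C hR hu0).1, ?_⟩
  -- walk
  have key : ∀ n : ℕ, ∀ z, Bt (be C v) z (be C w) → d (be C v) z = n → ∀ u, Att C v w z u →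
      Con C 4 v w v u := by
    intro n
    induction n with
    | zero =>
      intro z hz hd u hu
      have : be C v = z := eq_of_d _ _ hd
      subst this
      exact (start C hR hu).2
    | succ n ih =>
      intro z hz hd u hu
      obtain ⟨z', hz', hd'⟩ := exists_bt' (be C v) z (k := 1) (by omega)
      have hzz := hz.trans_left hz'
      obtain ⟨u', hu'⟩ := exists_att C hzz.1
      have e1 := ih z' hzz.1 (by unfold Bt at hz'; omega) u' hu'
      exact e1.trans C (link C hF hR hzz.1 hz (by omega) hu' hu)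
  obtain ⟨u1, hu1⟩ := exists_att C hw0
  have k1 := key _ _ hw0 rfl u1 hu1
  -- the end, by symmetry
  have hu1' : Att C w v (be C w) u1 := by
    rcases hu1 with ⟨h1, h2⟩ | ⟨i, h1, h2, h3⟩
    · exact Or.inl ⟨Vis.symm C h1, h2⟩
    · exact Or.inr ⟨i, InArch.symm C h1, fun h => h2 (VisI.symm C h), Arch.symm C h3⟩
  have k2 := (start C hR hu1').2
  have k3 : Con C 4 v w w u1 := by
    unfold H35.Con at *
    clear k1 hu1' hu1
    induction k2 with
    | refl => exact Relation.ReflTransGen.refl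
    | tail _ h2 ih => exact ih.tail ⟨LL.symm C h2.1, LL.symm C h2.2.1, h2.2.2⟩
  exact k1.trans C k3.symm

theorem s1_f1 : F1Stmt := f1
theorem s1_f2 : F2Stmt := f2
theorem s1_b0 : B0Stmt := b0

end S1

end FrobP
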