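import Pool.Agent.Work.MP_50f8f6_al.Interface

/-!
# MP_50f8f6_al, block I2: the axes of short loxodromic elements form a family
-/

namespace FrobP
open GMet

namespace I2

/-- toolkit (L3) -/
def L3Stmt : Prop := ∀ (G V : Type) [Group G] [GMet V] [MulAction G V] [IsomAct G V] (δ : ℕ),
  Hyp V δ → ∀ (g : G) (x y z : V) (D : ℕ), d x (g • x) ≤ D → d y (g • y) ≤ D → Bt x z y →
    d z (g • z) ≤ D + 2 * δ

/-- toolkit (L8) -/
def L8Stmt : Prop := ∀ (G V : Type) [Group G] [GMet V] [MulAction G V] [IsomAct G V] (δ : ℕ),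
  Hyp V δ → ∀ (g : G) (x y z : V) (D : ℕ), d x (g • x) ≤ D → d y (g • y) ≤ D → Bt x z y →
    D + 13 * δ ≤ d x z → D + 13 * δ ≤ d z y → ∀ u : V, d z (g • z) ≤ d u (g • u) + 26 * δ

/-- toolkit (L4) -/
def L4Stmt : Prop := ∀ (G V : Type) [Group G] [GMet V] [MulAction G V] [IsomAct G V] (δ : ℕ),
  Hyp V δ → ∀ (g : G), 6 * δ + 2 ≤ md V g → ∀ (j : ℕ) (y : V),
    j * (md V g - 6 * δ) ≤ d y (g ^ j • y)

variable {G V : Type} [Group G] [GMet V] [MulAction G V]

/-- the minimal displacement is attained -/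
theorem exists_md (hne : Nonempty V) (g : G) : ∃ x : V, d x (g • x) = md V g := by
  obtain ⟨x⟩ := hne
  have : {n | ∃ x : V, d x (g • x) = n}.Nonempty := ⟨_, x, rfl⟩
  exact Nat.sInf_mem this

theorem fin_pow {δ ℓ A r p : ℕ} (hG : Good δ ℓ A r p G V) {g : G} (hf : IsOfFinOrder g) :
    g ^ p = 1 := by
  rcases hG.dich g with h | h
  · exact h.1
  · exfalso
    obtain ⟨x⟩ := hG.ne
    have h1 := h x (orderOf g)
    rw [pow_orderOf_eq_one, one_smul, d_self, mul_zero] at h1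
    have h2 := hf.orderOf_pos
    omega

theorem dich' {δ ℓ A r p : ℕ} (hG : Good δ ℓ A r p G V) {g : G} (hf : g ^ p ≠ 1) (x : V) (m : ℕ) :
    m ≤ r * d x (g ^ m • x) := by
  rcases hG.dich g with h | h
  · exact absurd h.1 hf
  · exact h x m

theorem cyc_comm {H : Subgroup G} (hH : IsCyclic H) {a b : G} (ha : a ∈ H) (hb : b ∈ H) :
    a * b = b * a := by
  obtain ⟨⟨f, hf⟩, hgen⟩ := hH.exists_generator
  obtain ⟨m, hm⟩ := Subgroup.mem_zpowers_iff.1 (hgen ⟨a, ha⟩)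
  obtain ⟨n, hn⟩ := Subgroup.mem_zpowers_iff.1 (hgen ⟨b, hb⟩)
  have hm' : f ^ m = a := by simpa using congrArg Subtype.val hm
  have hn' : f ^ n = b := by simpa using congrArg Subtype.val hn
  rw [← hm', ← hn', ← zpow_add, ← zpow_add, add_comm]

theorem mem_cent {a b : G} : a ∈ Subgroup.centralizer {b} ↔ a * b = b * a :=
  Subgroup.mem_centralizer_singleton_iff

/-- centralizers of nontrivial elements of an axis group -/
theorem cent (hcen : ∀ g : G, g ≠ 1 → IsCyclic (Subgroup.centralizer {g})) {δ : ℕ}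
    {E : Subgroup G} (hE : IsAx V δ E) {e : G} (he : e ∈ E) (h1 : e ≠ 1) :
    Subgroup.centralizer {e} = E := by
  obtain ⟨e0, hE1, hE2, hE3, x, hx⟩ := hE
  have he0 : e0 ∈ E := by rw [hE1]; exact Subgroup.mem_zpowers e0
  have hab : ∀ a ∈ E, ∀ b ∈ E, a * b = b * a := by
    intro a ha b hb
    rw [hE1] at ha hb
    obtain ⟨m, rfl⟩ := Subgroup.mem_zpowers_iff.1 ha
    obtain ⟨n, rfl⟩ := Subgroup.mem_zpowers_iff.1 hb
    rw [← zpow_add, ← zpow_add, add_comm]
  apply le_antisymm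
  · intro a ha
    rw [← hE2, mem_cent]
    exact cyc_comm (hcen e h1) ha (mem_cent.2 (hab e0 he0 e he))
  · intro a ha
    exact mem_cent.2 (hab a ha e he)

theorem disj (hcen : ∀ g : G, g ≠ 1 → IsCyclic (Subgroup.centralizer {g})) {δ : ℕ}
    {E E' : Subgroup G} (hE : IsAx V δ E) (hE' : IsAx V δ E') {e : G} (he : e ∈ E) (he' : e ∈ E')
    (h1 : e ≠ 1) : E = E' := by
  rw [← cent hcen hE he h1, ← cent hcen hE' he' h1]

variable [IsomAct G V]

theorem d_inv_smul (g : G) (x : V) : d x (g⁻¹ • x) = d x (g • x) := by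
  have := IsomAct.isom g x (g⁻¹ • x)
  rw [smul_inv_smul] at this
  rw [← this, GMet.symm]

theorem d_comm_smul {g h : G} (hc : g * h = h * g) (x : V) :
    d (h • x) (g • h • x) = d x (g • x) := by
  rw [← mul_smul, hc, mul_smul, IsomAct.isom]

/-- two generators of an infinite cyclic group -/
theorem gen_eq {a b : G} (ha : ¬ IsOfFinOrder a) (h : Subgroup.zpowers a = Subgroup.zpowers b) :
    b = a ∨ b = a⁻¹ := by
  obtain ⟨m, hm⟩ := Subgroup.mem_zpowers_iff.1
    (show b ∈ Subgroup.zpowers a by rw [h]; exact Subgroup.mem_zpowers b)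
  obtain ⟨n, hn⟩ := Subgroup.mem_zpowers_iff.1
    (show a ∈ Subgroup.zpowers b by rw [← h]; exact Subgroup.mem_zpowers a)
  have h1 : a ^ (m * n) = a ^ (1 : ℤ) := by rw [zpow_mul, hm, hn, zpow_one]
  have h2 : m * n = 1 := by
    have hinj : Function.Injective fun k : ℤ => a ^ k := injective_zpow_iff_not_isOfFinOrder.2 ha
    exact hinj h1
  rcases Int.eq_one_or_neg_one_of_mul_eq_one h2 with h3 | h3
  · left
    rw [← hm, h3, zpow_one]
  · right
    rw [← hm, h3, zpow_neg, zpow_one]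

/-- displacement by any generator -/
theorem disp_gen {δ : ℕ} {E : Subgroup G} (hE : IsAx V δ E) {x : V} {e : G} {D : ℕ}
    (he : E = Subgroup.zpowers e) (hx : ∃ e' : G, E = Subgroup.zpowers e' ∧ d x (e' • x) ≤ D) :
    d x (e • x) ≤ D := by
  obtain ⟨e', he', hx⟩ := hx
  obtain ⟨e0, hE1, hE2, hE3, -⟩ := hE
  have hinf : ¬ IsOfFinOrder e := by
    rcases gen_eq hE3 (hE1.symm.trans he) with h | h
    · rw [h]; exact hE3
    · rw [h, isOfFinOrder_inv_iff]; exact hE3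
  rcases gen_eq hinf (he.symm.trans he') with h | h
  · rw [← h]; exact hx
  · rw [h, d_inv_smul] at hx; exact hx

theorem norm {δ ℓ A r p : ℕ} (hG : Good δ ℓ A r p G V) (hp : p.Prime) (hp3 : 3 ≤ p)
    (E : Ax G V δ) (g : G) : g • E = E ↔ g ∈ E.1 := by
  obtain ⟨E, hE⟩ := E
  have hE0 := hE
  obtain ⟨e0, hE1, hE2, hE3, x, hx⟩ := hE
  constructor
  · intro h
    have h1 : E.map (MulAut.conj g).toMonoidHom = E := congrArg Subtype.val h
    have h2 : Subgroup.zpowers e0 = Subgroup.zpowers (g * e0 * g⁻¹) := by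
      rw [← hE1]
      conv_lhs => rw [← h1]
      conv_lhs => rw [hE1]
      rw [MonoidHom.map_zpowers]
      rfl
    change g ∈ E
    rcases gen_eq hE3 h2 with h3 | h3
    · rw [← hE2, mem_cent]
      calc g * e0 = g * e0 * g⁻¹ * g := by group
        _ = e0 * g := by rw [h3]
    · -- `g` inverts `e0`
      exfalso
      have h4 : g * g ∈ E := by
        rw [← hE2, mem_cent]
        have h5 : g * e0⁻¹ * g⁻¹ = e0 := by
          have : g * e0⁻¹ * g⁻¹ = (g * e0 * g⁻¹)⁻¹ := by group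
          rw [this, h3, inv_inv]
        calc g * g * e0 = g * (g * e0 * g⁻¹) * g⁻¹ * (g * g) := by group
          _ = g * e0⁻¹ * g⁻¹ * (g * g) := by rw [h3]
          _ = e0 * (g * g) := by rw [h5]
      rw [hE1] at h4
      obtain ⟨j, hj⟩ := Subgroup.mem_zpowers_iff.1 h4
      have h5 : g * e0 ^ j * g⁻¹ = (e0 ^ j)⁻¹ := by
        rw [← conj_zpow, h3, inv_zpow]
      have h6 : g * (g * g) * g⁻¹ = g * g := by group
      rw [← hj, h5] at h6
      have h7 : e0 ^ (-j) = e0 ^ j := by rw [zpow_neg]; exact h6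
      have hinj : Function.Injective fun k : ℤ => e0 ^ k :=
        injective_zpow_iff_not_isOfFinOrder.2 hE3
      have h8 : -j = j := hinj h7
      have h9 : j = 0 := by omega
      rw [h9, zpow_zero] at hj
      have h10 : g ^ 2 = 1 := by rw [pow_two]; exact hj.symm
      have h11 : g ^ p = 1 := fin_pow hG (isOfFinOrder_iff_pow_eq_one.2 ⟨2, by norm_num, h10⟩)
      have hodd : p % 2 = 1 := by
        rcases hp.eq_two_or_odd with h | h
        · omega
        · exact h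
      have h12 : g = 1 := by
        have : g ^ p = (g ^ 2) ^ (p / 2) * g := by
          rw [← pow_mul, ← pow_succ]
          congr 1
          omega
        rw [h11, h10, one_pow, one_mul] at this
        exact this.symm
      rw [h12, one_mul, inv_one, mul_one] at h3
      have h13 : e0 ^ (1 : ℤ) = e0 ^ (-1 : ℤ) := by rw [zpow_neg, zpow_one]; exact h3
      have h14 : (1 : ℤ) = -1 := hinj h13
      omega
  · intro h
    apply Subtype.ext
    rw [Ax.smul_val]
    change E.map (MulAut.conj g).toMonoidHom = E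
    conv_lhs => rw [hE1]
    rw [MonoidHom.map_zpowers]
    have hcom : g * e0 = e0 * g := by
      have : g ∈ Subgroup.centralizer {e0} := by rw [hE2]; exact h
      exact mem_cent.1 this
    have : (MulAut.conj g).toMonoidHom e0 = e0 := by
      change g * e0 * g⁻¹ = e0
      rw [hcom]; group
    rw [this]
    exact hE1.symm

theorem mem_HAx {p δ : ℕ} (E : Ax G V δ) (h : G) :
    h ∈ HAx p δ E ↔ ∃ e ∈ E.1, h = e ^ p := by
  constructor
  · intro hh
    have hab : ∀ a ∈ E.1, ∀ b ∈ E.1, a * b = b * a := by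
      intro a ha b hb
      obtain ⟨e0, hE1, -⟩ := E.2
      rw [hE1] at ha hb
      obtain ⟨m, rfl⟩ := Subgroup.mem_zpowers_iff.1 ha
      obtain ⟨n, rfl⟩ := Subgroup.mem_zpowers_iff.1 hb
      rw [← zpow_add, ← zpow_add, add_comm]
    unfold HAx at hh
    induction hh using Subgroup.closure_induction with
    | mem x hx => exact hx
    | one => exact ⟨1, E.1.one_mem, (one_pow p).symm⟩
    | mul x y _ _ hx hy =>
      obtain ⟨a, ha, rfl⟩ := hx
      obtain ⟨b, hb, rfl⟩ := hy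
      exact ⟨a * b, E.1.mul_mem ha hb, ((show Commute a b from hab a ha b hb).mul_pow p).symm⟩
    | inv x _ hx =>
      obtain ⟨a, ha, rfl⟩ := hx
      exact ⟨a⁻¹, E.1.inv_mem ha, (inv_pow a p).symm⟩
  · rintro ⟨e, he, rfl⟩
    exact Subgroup.subset_closure ⟨e, he, rfl⟩

/-- nontrivial elements of axis groups have infinite order -/
theorem ax_inf {δ : ℕ} {E : Subgroup G} (hE : IsAx V δ E) {e : G} (he : e ∈ E) (h1 : e ≠ 1) :
    ¬ IsOfFinOrder e := by
  obtain ⟨e0, hE1, hE2, hE3, -⟩ := hE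
  rw [hE1] at he
  obtain ⟨m, rfl⟩ := Subgroup.mem_zpowers_iff.1 he
  intro hf
  obtain ⟨n, hn, h⟩ := isOfFinOrder_iff_pow_eq_one.1 hf
  have hinj : Function.Injective fun k : ℤ => e0 ^ k := injective_zpow_iff_not_isOfFinOrder.2 hE3
  have h2 : e0 ^ (m * (n : ℤ)) = e0 ^ (0 : ℤ) := by
    rw [zpow_mul, zpow_natCast, h, zpow_zero]
  have h3 : m * (n : ℤ) = 0 := hinj h2
  rcases mul_eq_zero.1 h3 with h4 | h4
  · apply h1; rw [h4, zpow_zero]
  · omega

theorem big {δ ℓ A r p : ℕ} (hG : Good δ ℓ A r p G V) (hp : p.Prime) (T : ℕ) (E : Ax G V δ)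
    (h : G) (hT : r * T ≤ p) (hh : h ∈ HAx p δ E) (h1 : h ≠ 1) (x : V) : T ≤ d x (h • x) := by
  obtain ⟨e, he, rfl⟩ := (mem_HAx E h).1 hh
  have he1 : e ≠ 1 := by
    rintro rfl
    exact h1 (one_pow p)
  have h2 := dich' hG (g := e) h1 x p
  have h3 : r * T ≤ r * d x (e ^ p • x) := hT.trans h2
  have hr : 0 < r := by
    rcases Nat.eq_zero_or_pos r with h4 | h4
    · rw [h4, zero_mul] at h2
      have := hp.pos
      omega
    · exact h4
  exact Nat.le_of_mul_le_mul_left h3 hr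

theorem far {δ ℓ A r p c0 : ℕ} (h3 : L3Stmt) (h8 : L8Stmt) (hδA : δ ≤ A)
    (hG : Good δ ℓ A r p G V) (hp : p.Prime)
    (hC1 : ∀ (D : ℕ) (g : G), g ≠ 1 → ∀ x y : V, d x (g • x) ≤ D → d y (g • y) ≤ D →
      ∃ k : ℤ, d (g ^ k • x) y ≤ c0 * (D + A))
    (D : ℕ) (E : Ax G V δ) (e : G) (he : e ∈ E.1) (h1 : e ≠ 1) (u : V) (hu : d u (e • u) ≤ D) :
    ∃ y ∈ YAx δ E, d u y ≤ 3 * c0 * (D + A) := by
  obtain ⟨E, hE⟩ := E
  have hE0 := hE
  obtain ⟨e0, hE1, hE2, hE3, w, hw⟩ := hE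
  have he' : e ∈ E := he
  have hcom : e * e0 = e0 * e := by
    have : e ∈ Subgroup.centralizer {e0} := by rw [hE2]; exact he'
    exact mem_cent.1 this
  have hcomk : ∀ k : ℕ, e * e0 ^ k = e0 ^ k * e := fun k =>
    (show Commute e e0 from hcom).pow_right k
  have hcomk0 : ∀ k : ℕ, e0 * e0 ^ k = e0 ^ k * e0 := fun k => (Commute.refl e0).pow_right k
  set D' := d u (e0 • u) with hD'
  have hpe : e0 ^ p ≠ 1 := fun h => hE3 (isOfFinOrder_iff_pow_eq_one.2 ⟨p, hp.pos, h⟩)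
  set N := 2 * (D' + 13 * δ) with hN
  have hdist := dich' hG (g := e0) hpe u (r * N + 1)
  have hlt : N < d u (e0 ^ (r * N + 1) • u) := by
    have : r * N < r * d u (e0 ^ (r * N + 1) • u) := by omega
    exact lt_of_mul_lt_mul_left this (Nat.zero_le r)
  set v := e0 ^ (r * N + 1) • u with hv
  obtain ⟨z, hz, hdz⟩ := exists_bt u v (k := D' + 13 * δ) (by omega)
  have hzy : D' + 13 * δ ≤ d z v := by unfold Bt at hz; omega
  have hv1 : d v (e0 • v) = D' := d_comm_smul (hcomk0 _) u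
  have hv2 : d v (e • v) ≤ D := by
    rw [hv, d_comm_smul (hcomk _) u]
    exact hu
  have hz1 : d z (e0 • z) ≤ 150 * δ := by
    have := h8 G V δ hG.hyp e0 u v z D' le_rfl hv1.le hz hdz.ge hzy w
    omega
  have hz2 : d z (e • z) ≤ D + 2 * δ := h3 G V δ hG.hyp e u v z D hu hv2 hz
  obtain ⟨k, hk⟩ := hC1 (D + 2 * δ) e h1 z u hz2 (by omega)
  refine ⟨e ^ k • z, ⟨e0, hE1, ?_⟩, ?_⟩
  · have hc : e0 * e ^ k = e ^ k * e0 := (show Commute e0 e from hcom.symm).zpow_right k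
    rw [d_comm_smul hc]
    exact hz1
  · rw [GMet.symm]
    refine hk.trans ?_
    rw [mul_comm 3 c0, mul_assoc]
    apply Nat.mul_le_mul_left
    omega

theorem qc {δ A c1 : ℕ} (h3 : L3Stmt) (hδA : δ ≤ A) (hyp : Hyp V δ)
    (hfar : ∀ (D : ℕ) (E : Ax G V δ) (e : G), e ∈ E.1 → e ≠ 1 → ∀ u : V, d u (e • u) ≤ D →
      ∃ y ∈ YAx δ E, d u y ≤ c1 * (D + A)) (E : Ax G V δ) :
    QC (153 * c1 * A) (YAx δ E) := by
  intro x hx y hy z hz
  obtain ⟨e0, hE1, hE2, hE3, -⟩ := E.2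
  have hx' := disp_gen E.2 hE1 hx
  have hy' := disp_gen E.2 hE1 hy
  have hz' := h3 G V δ hyp e0 x y z _ hx' hy' hz
  have he0 : e0 ∈ E.1 := by rw [hE1]; exact Subgroup.mem_zpowers e0
  have h1 : e0 ≠ 1 := by
    rintro rfl
    exact hE3 IsOfFinOrder.one
  obtain ⟨w, hw, hd⟩ := hfar (152 * δ) E e0 he0 h1 z (by omega)
  refine ⟨w, hw, hd.trans ?_⟩
  calc c1 * (152 * δ + A) ≤ c1 * (153 * A) := Nat.mul_le_mul_left _ (by omega)
    _ = 153 * c1 * A := by ring

theorem small {δ A c0 θ : ℕ} (h3 : L3Stmt) (hδA : δ ≤ A) (hyp : Hyp V δ)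
    (hcen : ∀ g : G, g ≠ 1 → IsCyclic (Subgroup.centralizer {g}))
    (hC2 : ∀ (D : ℕ) (g h : G), g ≠ 1 → h ≠ 1 → ∀ x y : V, d x (g • x) ≤ D → d y (g • y) ≤ D →
      d x (h • x) ≤ D → d y (h • y) ≤ D → c0 * (D + A) ≤ d x y → g * h = h * g)
    (hyp' : Hyp V θ) (h1 : 1 ≤ θ) (hQ : ∀ E : Ax G V δ, QC θ (YAx δ E))
    (E E' : Ax G V δ) (hne : E ≠ E') (x : V) (hx : x ∈ YAx δ E') (y : V) (hy : y ∈ YAx δ E') :
    prd (YAx δ E) x y ≤ c0 * (153 * A + 36 * θ) + 8 * θ := by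
  apply prd_le
  intro a b ha hb
  by_contra hlt
  push Not at hlt
  obtain ⟨e, hE1, hE2, hE3, -⟩ := E.2
  obtain ⟨e', hE1', hE2', hE3', -⟩ := E'.2
  have he : e ∈ E.1 := by rw [hE1]; exact Subgroup.mem_zpowers e
  have he' : e' ∈ E'.1 := by rw [hE1']; exact Subgroup.mem_zpowers e'
  have hn : e ≠ 1 := by
    rintro rfl
    exact hE3 IsOfFinOrder.one
  have hn' : e' ≠ 1 := by
    rintro rfl
    exact hE3' IsOfFinOrder.one
  have hx' := disp_gen E'.2 hE1' hx
  have hy' := disp_gen E'.2 hE1' hy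
  have ha' := disp_gen E.2 hE1 ha.1
  have hb' := disp_gen E.2 hE1 hb.1
  have key : ∀ a z : V, Bt x z y → d z a ≤ 18 * θ → d a (e' • a) ≤ 152 * δ + 36 * θ := by
    intro a z hz hza
    have h5 := h3 G V δ hyp e' x y z _ hx' hy' hz
    have t1 := tri a z (e' • a)
    have t2 := tri z (e' • z) (e' • a)
    have t3 := IsomAct.isom e' z a
    have s1 := GMet.symm a z
    omega
  obtain ⟨z, hz, hza⟩ := ha.p5 hyp' h1 (hQ E) hb (by omega)
  obtain ⟨z', hz', hzb⟩ := hb.p5 hyp' h1 (hQ E) ha (by rw [GMet.symm]; omega)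
  have hcomm := hC2 (152 * δ + 36 * θ) e e' hn hn' a b (by omega) (by omega) (key a z hz hza)
    (key b z' hz'.symm' hzb) (by
      refine le_trans (Nat.mul_le_mul_left c0 (show 152 * δ + 36 * θ + A ≤ 153 * A + 36 * θ by
        omega)) ?_
      omega)
  have h6 : e' ∈ E.1 := by
    rw [← hE2, mem_cent]
    exact hcomm.symm
  exact hne (Subtype.ext (disj hcen E.2 E'.2 h6 he' hn'))

theorem pow_short {δ ℓ A r p : ℕ} (h4 : L4Stmt) (hδ : 1 ≤ δ) (hG : Good δ ℓ A r p G V)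
    (hp : p.Prime)
    (hcen : ∀ g : G, g ≠ 1 → IsCyclic (Subgroup.centralizer {g})) (g : G) (hg : g ^ p ≠ 1)
    (hx : ∃ x : V, d x (g • x) ≤ 100 * δ) : ∃ E : Ax G V δ, g ∈ E.1 := by
  obtain ⟨x, hx⟩ := hx
  have hg1 : g ≠ 1 := by
    rintro rfl
    exact hg (one_pow p)
  obtain ⟨⟨e, he⟩, hgen⟩ := (hcen g hg1).exists_generator
  have hgen' : ∀ a, a ∈ Subgroup.centralizer {g} → a ∈ Subgroup.zpowers e := by
    intro a ha
    obtain ⟨m, hm⟩ := Subgroup.mem_zpowers_iff.1 (hgen ⟨a, ha⟩)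
    exact Subgroup.mem_zpowers_iff.2 ⟨m, by simpa using congrArg Subtype.val hm⟩
  obtain ⟨j, hj⟩ := Subgroup.mem_zpowers_iff.1 (hgen' g (mem_cent.2 rfl))
  have hinf : ¬ IsOfFinOrder e := by
    intro hf
    have h5 := fin_pow hG hf
    apply hg
    rw [← hj, ← zpow_natCast, ← zpow_mul, mul_comm, zpow_mul, zpow_natCast, h5, one_zpow]
  refine ⟨⟨Subgroup.zpowers e, e, rfl, ?_, hinf, ?_⟩, Subgroup.mem_zpowers_iff.2 ⟨j, hj⟩⟩
  · apply le_antisymm
    · intro a ha
      apply hgen'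
      rw [mem_cent] at ha ⊢
      rw [← hj]
      exact (show Commute a e from ha).zpow_right j
    · intro a ha
      obtain ⟨m, rfl⟩ := Subgroup.mem_zpowers_iff.1 ha
      rw [mem_cent]
      exact ((Commute.refl e).zpow_left m)
  · obtain ⟨w, hw⟩ := exists_md (V := V) hG.ne e
    refine ⟨w, ?_⟩
    rw [hw]
    by_contra hlt
    push Not at hlt
    have h5 := h4 G V δ hG.hyp e (by omega) j.natAbs x
    have h6 : d x (e ^ j.natAbs • x) = d x (g • x) := by
      rcases Int.natAbs_eq j with h | h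
      · rw [← hj]
        conv_rhs => rw [h, zpow_natCast]
      · rw [← hj]
        conv_rhs => rw [h, zpow_neg, zpow_natCast, d_inv_smul]
    have hj0 : 1 ≤ j.natAbs := by
      rcases Nat.eq_zero_or_pos j.natAbs with h | h
      · exfalso
        apply hg1
        rw [← hj, Int.natAbs_eq_zero.1 h, zpow_zero]
      · exact h
    rw [h6] at h5
    have h7 : 1 * (md V e - 6 * δ) ≤ j.natAbs * (md V e - 6 * δ) := Nat.mul_le_mul_right _ hj0
    omega

end I2

/-- BLOCK I2 -/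
theorem axes_of (h3 : I2.L3Stmt) (h4 : I2.L4Stmt) (h8 : I2.L8Stmt) (hClass : ClassStmt) :
    AxesStmt := by
  obtain ⟨c0, hC⟩ := hClass
  -- `θ = 459 * (c0 + 1) * A`
  refine ⟨(c0 + 1) * (153 + 36 * (459 * (c0 + 1))) + 8 * (459 * (c0 + 1)), ?_⟩
  intro δ ℓ A r p G V _ _ _ _ hδ hℓ hA hp hp3 hG
  obtain ⟨hC1, hC2, hC3⟩ := hC δ ℓ A r p G V hδ hℓ hA hp hp3 hG
  have hfar0 := I2.far h3 h8 hA hG hp hC1
  have hθ : ∀ E : Ax G V δ, QC (459 * (c0 + 1) * A) (YAx δ E) := by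
    intro E x hx y hy z hz
    obtain ⟨w, hw, hd⟩ := I2.qc h3 hA hG.hyp hfar0 E x hx y hy z hz
    refine ⟨w, hw, hd.trans ?_⟩
    have : 153 * (3 * c0) ≤ 459 * (c0 + 1) := by omega
    exact Nat.mul_le_mul_right A this
  have hge : δ ≤ 459 * (c0 + 1) * A := by
    have h1 : 1 * A ≤ 459 * (c0 + 1) * A := Nat.mul_le_mul_right A (by omega)
    omega
  have hyp' : Hyp V (459 * (c0 + 1) * A) := by
    intro x y z w
    have := hG.hyp x y z w
    omega
  have hsmall := I2.small h3 hA hG.hyp hC3 hC2 hyp' (by omega) hθ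
  have hle : 459 * (c0 + 1) * A ≤
      ((c0 + 1) * (153 + 36 * (459 * (c0 + 1))) + 8 * (459 * (c0 + 1))) * A := by
    apply Nat.mul_le_mul_right
    omega
  refine ⟨?_, ?_, I2.pow_short h4 hδ hG hp hC3, fun E e he h1 => I2.cent hC3 E.2 he h1,
    fun g E => I2.norm hG hp hp3 E g, fun E h => I2.mem_HAx E h,
    fun T E h hT hh h1 x => I2.big hG hp T E h hT hh h1 x⟩
  · intro ρ R hρ hR
    refine ⟨?_, ?_, ?_, ?_⟩
    · omega
    · intro x y z w
      have := hG.hyp x y z w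
      omega
    · intro E x hx y hy z hz
      obtain ⟨w, hw, hd⟩ := hθ E x hx y hy z hz
      exact ⟨w, hw, hd.trans hle⟩
    · intro E E' hne x hx y hy
      refine (hsmall E E' hne x hx y hy).trans ?_
      have : (c0 + 1) * (153 + 36 * (459 * (c0 + 1))) * A =
          (c0 + 1) * (153 * A + 36 * (459 * (c0 + 1) * A)) := by ring
      rw [add_mul, this]
      have h2 : c0 * (153 * A + 36 * (459 * (c0 + 1) * A)) ≤
          (c0 + 1) * (153 * A + 36 * (459 * (c0 + 1) * A)) :=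
        Nat.mul_le_mul_right _ (by omega)
      have h3 : 8 * (459 * (c0 + 1) * A) = 8 * (459 * (c0 + 1)) * A := by ring
      omega
  · intro D E e he h1 u hu
    obtain ⟨y, hy, hd⟩ := hfar0 D E e he h1 u hu
    refine ⟨y, hy, hd.trans ?_⟩
    apply Nat.mul_le_mul_right
    omega

end FrobP
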